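import Mathlib

/-!
# MP_0edf05_co: the product of average distance and girth

Among connected graphs of given order containing a cycle, the product of the average distance and
the girth is maximised exactly by the cycle.
-/

namespace Pool.Agent.Results.MP_0edf05_co.AvgDistGirth

/-- The average distance: the mean of the distances over all ordered (equivalently, over all
unordered) pairs of distinct vertices. -/
noncomputable def avgDist {V : Type} [Fintype V] (G : SimpleGraph V) : ℝ :=
  (∑ u, ∑ v, (G.dist u v : ℝ)) / ((Fintype.card V : ℝ) * ((Fintype.card V : ℝ) - 1))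

/-! ### An initial segment lemma -/

lemma initial_segment {α : Type} [DecidableEq α] (h : α → ℕ) : ∀ (n : ℕ) (Q : Finset α),
    Q.card = n → (∀ u ∈ Q, ∀ k < h u, ∃ w ∈ Q, h w = k) →
    2 * ∑ u ∈ Q, h u ≤ n * (n - 1) := by
  intro n
  induction n with
  | zero =>
    intro Q hQ _
    rw [Finset.card_eq_zero] at hQ
    subst hQ
    simp
  | succ n ih =>
    intro Q hQ hseg
    have hne : Q.Nonempty := by rw [← Finset.card_pos]; omega
    obtain ⟨u, huQ, hu⟩ := Finset.exists_max_image Q h hne
    have hQ' : (Q.erase u).card = n := by rw [Finset.card_erase_of_mem huQ]; omega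
    have hseg' : ∀ u' ∈ Q.erase u, ∀ k < h u', ∃ w ∈ Q.erase u, h w = k := by
      intro u' hu' k hk
      have h1 := Finset.mem_of_mem_erase hu'
      obtain ⟨w, hw, hwk⟩ := hseg u' h1 k hk
      refine ⟨w, Finset.mem_erase.2 ⟨?_, hw⟩, hwk⟩
      rintro rfl
      have := hu u' h1
      omega
    have hmax : h u ≤ n := by
      have hsub : Finset.range (h u) ⊆ (Q.erase u).image h := by
        intro k hk
        rw [Finset.mem_range] at hk
        obtain ⟨w, hw, hwk⟩ := hseg u huQ k hk
        rw [Finset.mem_image]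
        refine ⟨w, Finset.mem_erase.2 ⟨?_, hw⟩, hwk⟩
        rintro rfl
        omega
      have := (Finset.card_le_card hsub).trans Finset.card_image_le
      rw [Finset.card_range] at this
      omega
    have h1 := ih (Q.erase u) hQ' hseg'
    have h2 : ∑ w ∈ Q, h w = h u + ∑ w ∈ Q.erase u, h w :=
      (Finset.add_sum_erase Q h huQ).symm
    rw [h2]
    have e : (n + 1) * (n + 1 - 1) = n * (n - 1) + 2 * n := by
      rcases n with _ | n
      · rfl
      · simp only [Nat.add_sub_cancel]; ring
    rw [e]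
    omega

/-! ### Cyclic sequences -/

/-- `c` is a periodic enumeration of a cycle of length `g` in `G`. -/
structure CycSeq {V : Type} (G : SimpleGraph V) (g : ℕ) (c : ℕ → V) : Prop where
  adj : ∀ i, G.Adj (c i) (c (i + 1))
  per : ∀ i, c (i + g) = c i
  inj : ∀ i < g, ∀ j < g, c i = c j → i = j

namespace CycSeq

variable {V : Type} {G : SimpleGraph V} {g : ℕ} {c : ℕ → V}

lemma per_mul (hc : CycSeq G g c) (i k : ℕ) : c (i + g * k) = c i := by
  induction k with
  | zero => simp
  | succ k ih =>
    rw [show i + g * (k + 1) = (i + g * k) + g by ring, hc.per, ih]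

lemma mod (hc : CycSeq G g c) (i : ℕ) : c (i % g) = c i := by
  conv_rhs => rw [← Nat.mod_add_div i g]
  rw [hc.per_mul]

lemma shift (hc : CycSeq G g c) (hg : 0 < g) (s : ℕ) : CycSeq G g (fun i => c (s + i)) where
  adj i := hc.adj (s + i)
  per i := by
    show c (s + (i + g)) = c (s + i)
    rw [← add_assoc]
    exact hc.per (s + i)
  inj := by
    intro i hi j hj hij
    have h1 : c ((s + i) % g) = c ((s + j) % g) := by rw [hc.mod, hc.mod]; exact hij
    have h2 := hc.inj _ (Nat.mod_lt _ hg) _ (Nat.mod_lt _ hg) h1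
    have h3 : i ≡ j [MOD g] := Nat.ModEq.add_left_cancel' s h2
    exact h3.eq_of_lt_of_lt hi hj

/-- The vertex set of the cycle. -/
def verts [DecidableEq V] (g : ℕ) (c : ℕ → V) : Finset V := (Finset.range g).image c

lemma card_verts [DecidableEq V] (hc : CycSeq G g c) : (verts g c).card = g := by
  unfold verts
  rw [Finset.card_image_of_injOn, Finset.card_range]
  intro i hi j hj hij
  simp only [Finset.coe_range, Set.mem_Iio] at hi hj
  exact hc.inj i hi j hj hij

lemma mem_verts [DecidableEq V] (hc : CycSeq G g c) (hg : 0 < g) (i : ℕ) : c i ∈ verts g c := by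
  unfold verts
  rw [Finset.mem_image]
  exact ⟨i % g, Finset.mem_range.2 (Nat.mod_lt _ hg), hc.mod i⟩

lemma verts_shift [DecidableEq V] (hc : CycSeq G g c) (hg : 0 < g) (s : ℕ) :
    verts g (fun i => c (s + i)) = verts g c := by
  apply Finset.eq_of_subset_of_card_le
  · intro x hx
    unfold verts at hx
    rw [Finset.mem_image] at hx
    obtain ⟨i, _, rfl⟩ := hx
    exact hc.mem_verts hg _
  · rw [hc.card_verts, (hc.shift hg s).card_verts]

lemma dist_le (hG : G.Connected) (hc : CycSeq G g c) (i k : ℕ) : G.dist (c i) (c (i + k)) ≤ k := by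
  induction k with
  | zero => simp
  | succ k ih =>
    have h1 := hG.dist_triangle (u := c i) (v := c (i + k)) (w := c (i + (k + 1)))
    have h2 : G.dist (c (i + k)) (c (i + (k + 1))) = 1 :=
      SimpleGraph.dist_eq_one_iff_adj.2 (hc.adj (i + k))
    omega

lemma dist_le' (hG : G.Connected) (hc : CycSeq G g c) (i k : ℕ) (hk : k ≤ g) :
    G.dist (c i) (c (i + k)) ≤ min k (g - k) := by
  rw [le_min_iff]
  refine ⟨hc.dist_le hG i k, ?_⟩
  have h1 := hc.dist_le hG (i + k) (g - k)
  rw [show i + k + (g - k) = i + g by omega, hc.per, SimpleGraph.dist_comm] at h1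
  exact h1

lemma sum_min (g : ℕ) : ∑ k ∈ Finset.range g, min k (g - k) = g * g / 4 := by
  induction g using Nat.twoStepInduction with
  | zero => simp
  | one => simp
  | more g ih _ =>
    have h1 : ∑ k ∈ Finset.range (g + 2), min k (g + 2 - k) =
        ∑ k ∈ Finset.range (g + 1), (min k (g - k) + 1) := by
      rw [Finset.sum_range_succ']
      simp only [Nat.zero_min, add_zero]
      apply Finset.sum_congr rfl
      intro k hk
      rw [Finset.mem_range] at hk
      omega
    rw [h1, Finset.sum_add_distrib, Finset.sum_range_succ, ih]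
    simp only [Finset.sum_const, Finset.card_range, smul_eq_mul, mul_one, Nat.sub_self,
      Nat.min_zero, add_zero]
    have : (g + 2) * (g + 2) = g * g + 4 * (g + 1) := by ring
    omega

lemma sum_dist_verts [DecidableEq V] (hG : G.Connected) (hc : CycSeq G g c) (hg : 0 < g) (i : ℕ) :
    ∑ u ∈ verts g c, G.dist (c i) u ≤ g * g / 4 := by
  rw [← hc.verts_shift hg i]
  unfold verts
  rw [Finset.sum_image]
  · rw [← sum_min]
    apply Finset.sum_le_sum
    intro k hk
    rw [Finset.mem_range] at hk
    exact hc.dist_le' hG i k hk.le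
  · intro a ha b hb hab
    simp only [Finset.coe_range, Set.mem_Iio] at ha hb
    exact (hc.shift hg i).inj a ha b hb hab

end CycSeq

/-- Vertices on a geodesic. -/
lemma exists_on_geo {V : Type} (G : SimpleGraph V) (hG : G.Connected) (v w : V) (p : ℕ)
    (hp : p ≤ G.dist v w) : ∃ u, G.dist v u = p ∧ G.dist u w = G.dist v w - p := by
  obtain ⟨P, hP⟩ := hG.exists_walk_length_eq_dist v w
  refine ⟨P.getVert p, ?_⟩
  have h1 := SimpleGraph.dist_le (P.take p)
  have h2 := SimpleGraph.dist_le (P.drop p)
  rw [SimpleGraph.Walk.take_length] at h1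
  rw [SimpleGraph.Walk.drop_length] at h2
  have h3 := hG.dist_triangle (u := v) (v := P.getVert p) (w := w)
  omega

open CycSeq

/-- The transmission of a vertex outside of the cycle. -/
lemma tr_bound {V : Type} [Fintype V] [DecidableEq V] (G : SimpleGraph V) (hG : G.Connected)
    (g p : ℕ) (hg : 2 ≤ g) (c : ℕ → V) (hc : CycSeq G g c) (hcard : Fintype.card V = g + p)
    (v : V) (hv : v ∉ verts g c) :
    2 * ∑ u, G.dist v u ≤ 2 * (g * p) + 2 * (g * g / 4) + p * (p - 1) := by
  classical
  have hne : (Finset.range g).Nonempty := ⟨0, Finset.mem_range.2 (by omega)⟩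
  obtain ⟨i0, hi0, hmin⟩ := Finset.exists_min_image (Finset.range g) (fun i => G.dist v (c i)) hne
  rw [Finset.mem_range] at hi0
  obtain ⟨t, ht⟩ : ∃ t, G.dist v (c i0) = t := ⟨_, rfl⟩
  have hminC : ∀ u ∈ verts g c, t ≤ G.dist v u := by
    intro u hu
    unfold verts at hu
    rw [Finset.mem_image] at hu
    obtain ⟨i, hi, rfl⟩ := hu
    rw [← ht]
    exact hmin i hi
  have ht1 : 1 ≤ t := by
    rw [← ht]
    apply hG.pos_dist_of_ne
    rintro rfl
    exact hv (hc.mem_verts (by omega) i0)
  have hCM : ∀ u ∈ verts g c, G.dist v u ≤ t + g / 2 := by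
    intro u hu
    rw [← hc.verts_shift (by omega) i0] at hu
    unfold verts at hu
    rw [Finset.mem_image] at hu
    obtain ⟨k, hk, rfl⟩ := hu
    rw [Finset.mem_range] at hk
    have h1 := hG.dist_triangle (u := v) (v := c i0) (w := c (i0 + k))
    have h2 := hc.dist_le' hG i0 k hk.le
    show G.dist v (c (i0 + k)) ≤ t + g / 2
    omega
  have hexw : ∀ k, ∃ w, k < t → G.dist v w = k := by
    intro k
    by_cases hk : k < t
    · obtain ⟨w, hw, _⟩ := exists_on_geo G hG v (c i0) k (by omega)
      exact ⟨w, fun _ => hw⟩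
    · exact ⟨v, fun h => absurd h hk⟩
  choose w hw using hexw
  set Q : Finset V := Finset.univ \ verts g c with hQ
  have hQcard : Q.card = p := by
    rw [hQ, Finset.card_sdiff_of_subset (Finset.subset_univ _), Finset.card_univ, hc.card_verts]
    omega
  have hQmem : ∀ u, u ∈ Q ↔ u ∉ verts g c := by
    intro u
    rw [hQ, Finset.mem_sdiff]
    simp
  have hwQ : ∀ k, k < t → w k ∈ Q := by
    intro k hk
    rw [hQmem]
    intro hmem
    have h1 := hminC _ hmem
    have h2 := hw k hk
    omega
  set h : V → ℕ := fun u => min (G.dist v u) (t - 1) + (G.dist v u - (t + g / 2)) with hh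
  have hseg : ∀ u ∈ Q, ∀ k < h u, ∃ w' ∈ Q, h w' = k := by
    intro u hu k hk
    by_cases hkt : k < t
    · refine ⟨w k, hwQ k hkt, ?_⟩
      have h1 := hw k hkt
      rw [hh]
      simp only [h1]
      omega
    · have hk' : k < min (G.dist v u) (t - 1) + (G.dist v u - (t + g / 2)) := hk
      have hd : k - (t - 1) + (t + g / 2) < G.dist v u := by omega
      obtain ⟨x, hx, _⟩ := exists_on_geo G hG v u (k - (t - 1) + (t + g / 2)) hd.le
      refine ⟨x, ?_, ?_⟩
      · rw [hQmem]
        intro hmem
        have := hCM x hmem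
        omega
      · rw [hh]
        simp only [hx]
        omega
  have hsumh := initial_segment h p Q hQcard hseg
  have hfar : (Q.filter fun u => t ≤ G.dist v u).card + t ≤ p := by
    have h1 : (Q.filter fun u => t ≤ G.dist v u).card + (Q.filter fun u => ¬ t ≤ G.dist v u).card
        = Q.card := Finset.card_filter_add_card_filter_not _
    have h2 : t ≤ (Q.filter fun u => ¬ t ≤ G.dist v u).card := by
      have h3 : (Finset.range t).card ≤ (Q.filter fun u => ¬ t ≤ G.dist v u).card := by
        apply Finset.card_le_card_of_injOn w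
        · intro k hk
          simp only [Finset.coe_range, Set.mem_Iio] at hk
          rw [Finset.mem_coe, Finset.mem_filter]
          refine ⟨hwQ k hk, ?_⟩
          rw [hw k hk]
          omega
        · intro a ha b hb hab
          simp only [Finset.coe_range, Set.mem_Iio] at ha hb
          rw [← hw a ha, ← hw b hb, hab]
      rwa [Finset.card_range] at h3
    omega
  have hsumQ : ∑ u ∈ Q, G.dist v u ≤ ∑ u ∈ Q, h u +
      (Q.filter fun u => t ≤ G.dist v u).card * (g / 2 + 1) := by
    have h1 : ∀ u ∈ Q, G.dist v u ≤ h u + (if t ≤ G.dist v u then (g / 2 + 1) else 0) := by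
      intro u _
      show G.dist v u ≤ min (G.dist v u) (t - 1) + (G.dist v u - (t + g / 2)) + _
      split_ifs with hif <;> omega
    refine (Finset.sum_le_sum h1).trans ?_
    rw [Finset.sum_add_distrib, ← Finset.sum_filter, Finset.sum_const, smul_eq_mul]
  have hsumC : ∑ u ∈ verts g c, G.dist v u ≤ g * t + g * g / 4 := by
    have h1 : ∀ u ∈ verts g c, G.dist v u ≤ t + G.dist (c i0) u := by
      intro u _
      have := hG.dist_triangle (u := v) (v := c i0) (w := u)
      omega
    refine (Finset.sum_le_sum h1).trans ?_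
    rw [Finset.sum_add_distrib, Finset.sum_const, hc.card_verts, smul_eq_mul]
    have := hc.sum_dist_verts hG (by omega) i0
    omega
  have hsplit : ∑ u, G.dist v u = ∑ u ∈ Q, G.dist v u + ∑ u ∈ verts g c, G.dist v u := by
    rw [hQ, Finset.sum_sdiff (Finset.subset_univ _)]
  obtain ⟨s, hs⟩ : ∃ s, p = t + s := ⟨p - t, by omega⟩
  have h1 : (Q.filter fun u => t ≤ G.dist v u).card * (g / 2 + 1) ≤ s * g :=
    Nat.mul_le_mul (by omega) (by omega)
  have h2 : g * p = g * t + s * g := by rw [hs]; ring
  rw [hsplit, h2]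
  omega

/-- Distances do not decrease when a vertex is deleted. -/
lemma dist_induce_le {V : Type} (G : SimpleGraph V) (S : Set V) (hS : (G.induce S).Connected)
    (a b : S) : G.dist a b ≤ (G.induce S).dist a b := by
  obtain ⟨P, hP⟩ := hS.exists_walk_length_eq_dist a b
  have h := SimpleGraph.dist_le (P.map (SimpleGraph.Embedding.induce S).toHom)
  rw [SimpleGraph.Walk.length_map, hP] at h
  exact h

/-- Deleting a vertex farthest from the cycle. -/
lemma exists_deletable {V : Type} [Fintype V] [DecidableEq V] (G : SimpleGraph V)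
    (hG : G.Connected) (g : ℕ) (hg : 2 ≤ g) (c : ℕ → V) (hc : CycSeq G g c)
    (hex : ∃ v, v ∉ verts g c) :
    ∃ v, v ∉ verts g c ∧ (G.induce {u | u ≠ v}).Connected := by
  classical
  have hne : (Finset.range g).Nonempty := ⟨0, Finset.mem_range.2 (by omega)⟩
  -- the distance to the cycle
  let δ : V → ℕ := fun u => (Finset.range g).inf' hne (fun i => G.dist u (c i))
  have hδ1 : ∀ u i, i < g → δ u ≤ G.dist u (c i) := fun u i hi =>
    Finset.inf'_le _ (Finset.mem_range.2 hi)
  have hδ2 : ∀ u, ∃ i < g, δ u = G.dist u (c i) := by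
    intro u
    obtain ⟨i, hi, h⟩ := Finset.exists_mem_eq_inf' hne (fun i => G.dist u (c i))
    exact ⟨i, Finset.mem_range.1 hi, h⟩
  obtain ⟨v, hvmem, hvmax⟩ := Finset.exists_max_image (Finset.univ \ verts g c) δ (by
    obtain ⟨v, hv⟩ := hex
    exact ⟨v, by simp [hv]⟩)
  have hv : v ∉ verts g c := by simpa using hvmem
  refine ⟨v, hv, ?_⟩
  have hcv : ∀ i, c i ∈ {u | u ≠ v} := by
    intro i h
    apply hv
    rw [← h]
    exact hc.mem_verts (by omega) i
  have hreach : ∀ (k : ℕ) (u : V) (hu : u ∈ {u | u ≠ v}), δ u = k →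
      (G.induce {u | u ≠ v}).Reachable ⟨u, hu⟩ ⟨c 0, hcv 0⟩ := by
    intro k
    induction k using Nat.strong_induction_on with
    | _ k ih =>
      intro u hu hk
      by_cases huC : u ∈ verts g c
      · unfold verts at huC
        rw [Finset.mem_image] at huC
        obtain ⟨i, _, rfl⟩ := huC
        have hall : ∀ i, (G.induce {u | u ≠ v}).Reachable ⟨c i, hcv i⟩ ⟨c 0, hcv 0⟩ := by
          intro i
          induction i with
          | zero => exact SimpleGraph.Reachable.refl _
          | succ i ih2 =>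
            refine SimpleGraph.Reachable.trans ?_ ih2
            apply SimpleGraph.Adj.reachable
            exact (hc.adj i).symm
        exact hall i
      · obtain ⟨i, hi, h⟩ := hδ2 u
        have hpos : 0 < G.dist u (c i) := by
          apply hG.pos_dist_of_ne
          rintro rfl
          exact huC (hc.mem_verts (by omega) i)
        obtain ⟨x, hx1, hx2⟩ := exists_on_geo G hG u (c i) 1 hpos
        have hδx : δ x < δ u := by
          have := hδ1 x i hi
          omega
        have huv : δ u ≤ δ v := hvmax u (by simp [huC])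
        have hxv : x ∈ {u | u ≠ v} := by
          intro h
          rw [h] at hδx
          omega
        refine SimpleGraph.Reachable.trans ?_ (ih (δ x) (by omega) x hxv rfl)
        apply SimpleGraph.Adj.reachable
        have hadj : G.Adj u x := SimpleGraph.dist_eq_one_iff_adj.1 hx1
        exact hadj
  haveI : Nonempty ({u | u ≠ v} : Set V) := ⟨⟨c 0, hcv 0⟩⟩
  exact ⟨fun a b => (hreach _ a a.2 rfl).trans (hreach _ b b.2 rfl).symm⟩

/-- The bound on the sum of all distances in a connected graph with a cycle of length `g`. -/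
lemma wiener_bound (g : ℕ) (hg : 2 ≤ g) : ∀ (p : ℕ) (V : Type) [Fintype V] (G : SimpleGraph V)
    (_ : G.Connected) (c : ℕ → V) (_ : CycSeq G g c) (_ : Fintype.card V = g + p),
    3 * ∑ u, ∑ v, G.dist u v ≤
      3 * (g * (g * g / 4)) + 6 * (p * (g * g / 4)) + 3 * (g * (p * (p + 1))) +
        (p - 1) * (p * (p + 1)) := by
  intro p
  induction p with
  | zero =>
    intro V _ G hG c hc hcard
    classical
    have huniv : verts g c = Finset.univ := by
      apply Finset.eq_univ_of_card
      rw [hc.card_verts, hcard]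
      omega
    have h1 : ∀ u, ∑ v, G.dist u v ≤ g * g / 4 := by
      intro u
      have hu : u ∈ verts g c := by rw [huniv]; exact Finset.mem_univ u
      unfold verts at hu
      rw [Finset.mem_image] at hu
      obtain ⟨i, _, rfl⟩ := hu
      have := hc.sum_dist_verts hG (by omega) i
      rwa [huniv] at this
    have h2 : ∑ u, ∑ v, G.dist u v ≤ g * (g * g / 4) := by
      refine (Finset.sum_le_card_nsmul _ _ _ fun u _ => h1 u).trans ?_
      rw [Finset.card_univ, hcard, smul_eq_mul]
      simp
    omega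
  | succ p ih =>
    intro V _ G hG c hc hcard
    classical
    have hex : ∃ v, v ∉ verts g c := by
      by_contra hcon
      push Not at hcon
      have huniv : verts g c = Finset.univ := Finset.eq_univ_iff_forall.2 hcon
      have h1 := hc.card_verts
      rw [huniv, Finset.card_univ] at h1
      omega
    obtain ⟨v, hv, hconn⟩ := exists_deletable G hG g hg c hc hex
    have hcv : ∀ i, c i ∈ {u | u ≠ v} := by
      intro i h
      apply hv
      rw [← h]
      exact hc.mem_verts (by omega) i
    have hc' : CycSeq (G.induce {u | u ≠ v}) g (fun i => (⟨c i, hcv i⟩ : {u | u ≠ v})) := by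
      refine ⟨fun i => hc.adj i, fun i => Subtype.ext (hc.per i), ?_⟩
      intro i hi j hj hij
      exact hc.inj i hi j hj (congrArg Subtype.val hij)
    have hcard' : Fintype.card ({u | u ≠ v} : Set V) = g + p := by
      have : Fintype.card ({u | u ≠ v} : Set V) = Fintype.card V - 1 := by
        rw [← Set.card_ne_eq v]
      rw [this, hcard]
      omega
    have hIH := ih ({u | u ≠ v} : Set V) (G.induce {u | u ≠ v}) hconn _ hc' hcard'
    have htr := tr_bound G hG g (p + 1) hg c hc hcard v hv
    have hsplit1 : ∀ f : V → ℕ, ∑ u, f u = f v + ∑ u : ({u | u ≠ v} : Set V), f u := by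
      intro f
      exact Fintype.sum_eq_add_sum_subtype_ne f v
    have hsum : ∑ u, ∑ w, G.dist u w ≤ 2 * ∑ w, G.dist v w +
        ∑ a : ({u | u ≠ v} : Set V), ∑ b : ({u | u ≠ v} : Set V),
          (G.induce {u | u ≠ v}).dist a b := by
      rw [hsplit1 (fun u => ∑ w, G.dist u w)]
      have e1 : ∑ a : ({u | u ≠ v} : Set V), ∑ w, G.dist (a : V) w =
          ∑ a : ({u | u ≠ v} : Set V), (G.dist (a : V) v +
            ∑ b : ({u | u ≠ v} : Set V), G.dist (a : V) b) := by
        apply Finset.sum_congr rfl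
        intro a _
        exact hsplit1 (fun w => G.dist (a : V) w)
      rw [e1, Finset.sum_add_distrib]
      have e2 : ∑ a : ({u | u ≠ v} : Set V), G.dist (a : V) v = ∑ w, G.dist v w := by
        have h := hsplit1 (fun w => G.dist v w)
        simp only [SimpleGraph.dist_self, zero_add] at h
        rw [h]
        apply Finset.sum_congr rfl
        intro a _
        exact SimpleGraph.dist_comm
      rw [e2]
      have e3 : ∑ a : ({u | u ≠ v} : Set V), ∑ b : ({u | u ≠ v} : Set V), G.dist (a : V) b ≤
          ∑ a : ({u | u ≠ v} : Set V), ∑ b : ({u | u ≠ v} : Set V),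
          (G.induce {u | u ≠ v}).dist a b :=
        Finset.sum_le_sum fun a _ => Finset.sum_le_sum fun b _ => dist_induce_le G _ hconn a b
      omega
    have e4 : 3 * (g * ((p + 1) * (p + 1 + 1))) = 3 * (g * (p * (p + 1))) + 6 * (g * (p + 1)) := by
      ring
    have e5 : 6 * ((p + 1) * (g * g / 4)) = 6 * (p * (g * g / 4)) + 6 * (g * g / 4) := by ring
    have e6 : (p + 1 - 1) * ((p + 1) * (p + 1 + 1)) =
        (p - 1) * (p * (p + 1)) + 3 * ((p + 1) * (p + 1 - 1)) := by
      rcases p with _ | p
      · rfl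
      · simp only [Nat.add_sub_cancel]; ring
    rw [e4, e5, e6]
    omega

/-- A cycle walk gives a periodic enumeration. -/
lemma cycSeq_of_cycle {V : Type} {G : SimpleGraph V} {a : V} (w : G.Walk a a) (hw : w.IsCycle) :
    CycSeq G w.length (fun i => w.getVert (i % w.length)) := by
  have h3 := hw.three_le_length
  refine ⟨?_, ?_, ?_⟩
  · intro i
    have hlt : i % w.length < w.length := Nat.mod_lt _ (by omega)
    by_cases h : i % w.length + 1 < w.length
    · have e : (i + 1) % w.length = i % w.length + 1 := by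
        rw [← Nat.mod_add_mod, Nat.mod_eq_of_lt h]
      rw [e]
      exact w.adj_getVert_succ (by omega)
    · have e1 : i % w.length + 1 = w.length := by omega
      have e : (i + 1) % w.length = 0 := by
        rw [← Nat.mod_add_mod, e1, Nat.mod_self]
      rw [e]
      have h1 := w.adj_getVert_succ (i := i % w.length) (by omega)
      rw [e1, w.getVert_length] at h1
      rw [w.getVert_zero]
      exact h1
  · intro i
    show w.getVert ((i + w.length) % w.length) = w.getVert (i % w.length)
    rw [Nat.add_mod_right]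
  · intro i hi j hj hij
    have hij' : w.getVert (i % w.length) = w.getVert (j % w.length) := hij
    rw [Nat.mod_eq_of_lt hi, Nat.mod_eq_of_lt hj] at hij'
    exact hw.getVert_injOn' (by simp only [Set.mem_ofPred_eq]; omega)
      (by simp only [Set.mem_ofPred_eq]; omega) hij'

/-- Paths along the cycle. -/
lemma exists_arc {V : Type} {G : SimpleGraph V} {g : ℕ} {c : ℕ → V} (hc : CycSeq G g c) (i : ℕ) :
    ∀ k, i + k < g → ∃ P : G.Walk (c i) (c (i + k)), P.length = k ∧ P.IsPath ∧
      (∀ x ∈ P.support, ∃ m, i ≤ m ∧ m ≤ i + k ∧ x = c m) ∧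
      (∀ e ∈ P.edges, ∃ m, i ≤ m ∧ m < i + k ∧ e = s(c m, c (m + 1))) := by
  intro k
  induction k with
  | zero =>
    intro _
    refine ⟨SimpleGraph.Walk.nil, rfl, SimpleGraph.Walk.IsPath.nil, ?_, ?_⟩
    · intro x hx
      rw [SimpleGraph.Walk.support_nil, List.mem_singleton] at hx
      exact ⟨i, le_refl _, le_refl _, hx⟩
    · intro e he
      simp at he
  | succ k ih =>
    intro hk
    obtain ⟨P, hP1, hP2, hP3, hP4⟩ := ih (by omega)
    have hadj : G.Adj (c (i + k)) (c (i + (k + 1))) := hc.adj (i + k)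
    refine ⟨P.concat hadj, ?_, ?_, ?_, ?_⟩
    · rw [SimpleGraph.Walk.length_concat, hP1]
    · apply hP2.concat
      intro hmem
      obtain ⟨m, hm1, hm2, hm3⟩ := hP3 _ hmem
      have := hc.inj _ (by omega) _ (by omega) hm3
      omega
    · intro x hx
      rw [SimpleGraph.Walk.support_concat, List.mem_append, List.mem_singleton] at hx
      rcases hx with hx | hx
      · obtain ⟨m, hm1, hm2, hm3⟩ := hP3 x hx
        exact ⟨m, hm1, by omega, hm3⟩
      · exact ⟨i + (k + 1), by omega, le_refl _, hx⟩
    · intro e he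
      rw [SimpleGraph.Walk.edges_concat, List.concat_eq_append, List.mem_append,
        List.mem_singleton] at he
      rcases he with he | he
      · obtain ⟨m, hm1, hm2, hm3⟩ := hP4 e he
        exact ⟨m, hm1, by omega, hm3⟩
      · exact ⟨i + k, by omega, by omega, he⟩

/-- A chord gives a short cycle. -/
lemma chord {V : Type} {G : SimpleGraph V} {g : ℕ} {c : ℕ → V} (hc : CycSeq G g c) (i j : ℕ)
    (hij : i < j) (hj : j < g) (hadj : G.Adj (c i) (c j)) : j = i + 1 ∨ G.girth ≤ j - i + 1 := by
  by_cases h1 : j = i + 1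
  · left; exact h1
  · right
    obtain ⟨P, hP1, hP2, hP3, hP4⟩ := exists_arc hc i (j - i) (by omega)
    have e : i + (j - i) = j := by omega
    have hadj' : G.Adj (c (i + (j - i))) (c i) := by rw [e]; exact hadj.symm
    have hcyc : (SimpleGraph.Walk.cons hadj' P).IsCycle := by
      rw [SimpleGraph.Walk.cons_isCycle_iff]
      refine ⟨hP2, ?_⟩
      intro hmem
      obtain ⟨m, hm1, hm2, hm3⟩ := hP4 _ hmem
      rw [e] at hm3
      rw [Sym2.eq_iff] at hm3
      rcases hm3 with ⟨h2, h3⟩ | ⟨h2, h3⟩
      · have a1 := hc.inj _ (by omega) _ (by omega) h2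
        have a2 := hc.inj _ (by omega) _ (by omega) h3
        omega
      · have a1 := hc.inj _ (by omega) _ (by omega) h2
        have a2 := hc.inj _ (by omega) _ (by omega) h3
        omega
    have := SimpleGraph.girth_le_length hcyc
    rw [SimpleGraph.Walk.length_cons, hP1] at this
    exact this

/-- A graph whose girth equals its order is a cycle graph. -/
lemma iso_of_girth {V : Type} [Fintype V] (G : SimpleGraph V) (n : ℕ) (hn : 3 ≤ n)
    (hcard : Fintype.card V = n) (hgirth : G.girth = n) (c : ℕ → V) (hc : CycSeq G n c) :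
    Nonempty (G ≃g SimpleGraph.cycleGraph n) := by
  classical
  let f : Fin n → V := fun i => c i
  have hinj : Function.Injective f := by
    intro i j hij
    exact Fin.ext (hc.inj _ i.2 _ j.2 hij)
  have hbij : Function.Bijective f := by
    rw [Fintype.bijective_iff_injective_and_card]
    exact ⟨hinj, by rw [hcard, Fintype.card_fin]⟩
  let e : Fin n ≃ V := Equiv.ofBijective f hbij
  have key : ∀ i j : Fin n, i < j → (G.Adj (f i) (f j) ↔ (SimpleGraph.cycleGraph n).Adj i j) := by
    intro i j hij
    have hij' : (i : ℕ) < j := hij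
    have hj := j.2
    rw [SimpleGraph.cycleGraph_adj']
    have e1 : (j - i).val = (j : ℕ) - i := Fin.sub_val_of_le hij.le
    have e2 : (i - j).val = n - ((j : ℕ) - i) := by
      rw [Fin.sub_def]
      simp only
      rw [Nat.mod_eq_of_lt (by omega)]
      omega
    rw [e1, e2]
    constructor
    · intro h
      rcases chord hc i j hij' hj h with h1 | h1
      · right; omega
      · left; omega
    · rintro (h | h)
      · have h0 : (i : ℕ) = 0 := by omega
        have h1 : (j : ℕ) = n - 1 := by omega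
        show G.Adj (c i) (c j)
        have h2 := hc.adj (n - 1)
        rw [show n - 1 + 1 = 0 + n by omega, hc.per] at h2
        rw [h0, h1]
        exact h2.symm
      · show G.Adj (c i) (c j)
        rw [show (j : ℕ) = i + 1 by omega]
        exact hc.adj i
  refine ⟨(RelIso.symm ⟨e, ?_⟩)⟩
  intro i j
  show G.Adj (f i) (f j) ↔ _
  rcases lt_trichotomy i j with h | h | h
  · exact key i j h
  · subst h
    simp
  · rw [SimpleGraph.adj_comm, key j i h, SimpleGraph.adj_comm]

/-- Walks in the cycle graph. -/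
lemma walk_shift {m : ℕ} {u v : Fin (m + 2)} (P : (SimpleGraph.cycleGraph (m + 2)).Walk u v) :
    ∃ a : ℤ, |a| ≤ P.length ∧ ((m + 2 : ℕ) : ℤ) ∣ ((v : ℕ) : ℤ) - ((u : ℕ) : ℤ) - a := by
  induction P with
  | nil => exact ⟨0, by simp, by simp⟩
  | cons hadj P ih =>
    rename_i x y z
    obtain ⟨a, ha1, ha2⟩ := ih
    have step : ∀ p q : Fin (m + 2), p - q = 1 →
        ((m + 2 : ℕ) : ℤ) ∣ ((p : ℕ) : ℤ) - ((q : ℕ) : ℤ) - 1 := by
      intro p q hpq
      have h1 : p = q + 1 := eq_add_of_sub_eq' hpq
      have h2 := Fin.val_add_one q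
      rw [← h1] at h2
      split_ifs at h2 with h3
      · rw [h2, h3]
        refine ⟨-1, ?_⟩
        simp only [Fin.val_last]
        push_cast
        ring
      · rw [h2]
        refine ⟨0, ?_⟩
        push_cast
        ring
    rw [SimpleGraph.cycleGraph_adj] at hadj
    rw [SimpleGraph.Walk.length_cons]
    rcases hadj with h | h
    · obtain ⟨r, hr⟩ := step _ _ h
      obtain ⟨q, hq⟩ := ha2
      refine ⟨a - 1, ?_, q - r, ?_⟩
      · have := abs_sub a 1
        rw [abs_one] at this
        push_cast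
        linarith
      · rw [mul_sub, ← hq, ← hr]
        ring
    · obtain ⟨r, hr⟩ := step _ _ h
      obtain ⟨q, hq⟩ := ha2
      refine ⟨a + 1, ?_, q + r, ?_⟩
      · have := abs_add_le a 1
        rw [abs_one] at this
        push_cast
        linarith
      · rw [mul_add, ← hq, ← hr]
        ring

lemma cycle_dist_ge {m : ℕ} (u v : Fin (m + 2)) :
    min (v - u).val (m + 2 - (v - u).val) ≤ (SimpleGraph.cycleGraph (m + 2)).dist u v := by
  obtain ⟨P, hP⟩ := (SimpleGraph.cycleGraph_connected (n := m + 1)).exists_walk_length_eq_dist u v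
  obtain ⟨a, ha1, ha2⟩ := walk_shift P
  rw [hP] at ha1
  set k := (v - u).val with hk
  have hkn : k < m + 2 := (v - u).2
  obtain ⟨q, hq⟩ : ∃ q : ℤ, (k : ℤ) = ((v : ℕ) : ℤ) - ((u : ℕ) : ℤ) + ((m + 2 : ℕ) : ℤ) * q := by
    have h1 : k = (m + 2 - (u : ℕ) + (v : ℕ)) % (m + 2) := by
      rw [hk, Fin.sub_def]
    have h2 := Nat.mod_add_div (m + 2 - (u : ℕ) + (v : ℕ)) (m + 2)
    rw [← h1] at h2
    have hu := u.2
    refine ⟨1 - (((m + 2 - (u : ℕ) + (v : ℕ)) / (m + 2) : ℕ) : ℤ), ?_⟩
    generalize (m + 2 - (u : ℕ) + (v : ℕ)) / (m + 2) = D at h2 ⊢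
    have h3 : ((k + (m + 2) * D : ℕ) : ℤ) = ((m + 2 - (u : ℕ) + (v : ℕ) : ℕ) : ℤ) := by rw [h2]
    rw [Nat.cast_add k, Nat.cast_mul] at h3
    have h4 : ((m + 2 - (u : ℕ) + (v : ℕ) : ℕ) : ℤ) =
        ((m + 2 : ℕ) : ℤ) - ((u : ℕ) : ℤ) + ((v : ℕ) : ℤ) := by omega
    rw [h4] at h3
    linarith
  obtain ⟨r, hr⟩ := ha2
  have hdiff : (k : ℤ) - a = ((m + 2 : ℕ) : ℤ) * (r + q) := by
    rw [hq, mul_add, ← hr]
    ring
  by_contra hcon
  push Not at hcon
  rw [lt_min_iff] at hcon
  obtain ⟨hc1, hc2⟩ := hcon
  have hb := abs_le.1 ha1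
  have hpos : 0 < (k : ℤ) - a := by
    have : ((SimpleGraph.cycleGraph (m + 2)).dist u v : ℤ) < k := by exact_mod_cast hc1
    linarith [hb.2]
  have hlt : (k : ℤ) - a < ((m + 2 : ℕ) : ℤ) := by
    have : ((SimpleGraph.cycleGraph (m + 2)).dist u v : ℤ) < ((m + 2 - k : ℕ) : ℤ) := by
      exact_mod_cast hc2
    rw [Nat.cast_sub hkn.le] at this
    linarith [hb.1]
  rw [hdiff] at hpos hlt
  have hN : (0 : ℤ) < ((m + 2 : ℕ) : ℤ) := by positivity
  have h1 : 0 < r + q := by
    by_contra h
    push Not at h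
    have := mul_nonpos_of_nonneg_of_nonpos hN.le h
    linarith
  have h2 : ((m + 2 : ℕ) : ℤ) * 1 ≤ ((m + 2 : ℕ) : ℤ) * (r + q) :=
    mul_le_mul_of_nonneg_left (by linarith) hN.le
  linarith

/-- The exact lower bound for the cycle graph. -/
lemma cycle_sum_ge {V : Type} [Fintype V] (G : SimpleGraph V) (hG : G.Connected) (n : ℕ)
    (hn : 2 ≤ n) (φ : G ≃g SimpleGraph.cycleGraph n) : n * (n * n / 4) ≤ ∑ u, ∑ v, G.dist u v := by
  obtain ⟨m, rfl⟩ : ∃ m, n = m + 2 := ⟨n - 2, by omega⟩
  have hle : ∀ u v, (SimpleGraph.cycleGraph (m + 2)).dist (φ u) (φ v) ≤ G.dist u v := by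
    intro u v
    obtain ⟨P, hP⟩ := hG.exists_walk_length_eq_dist u v
    have h := SimpleGraph.dist_le (P.map φ.toHom)
    rw [SimpleGraph.Walk.length_map, hP] at h
    exact h
  have hrow : ∀ u, (m + 2) * (m + 2) / 4 ≤ ∑ v, G.dist u v := by
    intro u
    have h1 : ∑ v, min (φ v - φ u).val (m + 2 - (φ v - φ u).val) ≤ ∑ v, G.dist u v :=
      Finset.sum_le_sum fun v _ => (cycle_dist_ge (φ u) (φ v)).trans (hle u v)
    refine le_trans (le_of_eq ?_) h1
    have h2 : ∑ v, min (φ v - φ u).val (m + 2 - (φ v - φ u).val) =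
        ∑ w : Fin (m + 2), min w.val (m + 2 - w.val) := by
      apply Fintype.sum_equiv (φ.toEquiv.trans (Equiv.subRight (φ u)))
      intro v
      rfl
    rw [h2, Fin.sum_univ_eq_sum_range (fun k => min k (m + 2 - k)), sum_min]
  have hcard : Fintype.card V = m + 2 := by
    rw [Fintype.card_congr φ.toEquiv, Fintype.card_fin]
  have h := Finset.card_nsmul_le_sum Finset.univ (fun u => ∑ v, G.dist u v) _ fun u _ => hrow u
  rw [Finset.card_univ, hcard, smul_eq_mul] at h
  exact h

/-- In a graph isomorphic to a cycle graph every cycle is Hamiltonian. -/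
lemma cycle_full {V : Type} [Fintype V] [DecidableEq V] (G : SimpleGraph V) (hG : G.Connected)
    (n : ℕ) (φ : G ≃g SimpleGraph.cycleGraph n) (g : ℕ) (hg : 3 ≤ g) (c : ℕ → V)
    (hc : CycSeq G g c) : ∀ u, u ∈ verts g c := by
  have hn : 2 ≤ n := by
    by_contra h
    have hadj := φ.map_adj_iff.2 (hc.adj 0)
    rcases (by omega : n = 0 ∨ n = 1) with h0 | h0
    · subst h0
      exact (φ (c 0)).elim0
    · subst h0
      exact SimpleGraph.cycleGraph_one_adj hadj
  obtain ⟨m, rfl⟩ : ∃ m, n = m + 2 := ⟨n - 2, by omega⟩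
  have hclosed : ∀ x y, x ∈ verts g c → G.Adj x y → y ∈ verts g c := by
    intro x y hx hxy
    unfold verts at hx
    rw [Finset.mem_image] at hx
    obtain ⟨i, _, rfl⟩ := hx
    have h1 : G.Adj (c i) (c (i + 1)) := hc.adj i
    have h2 : G.Adj (c i) (c (i + (g - 1))) := by
      have := hc.adj (i + (g - 1))
      rw [show i + (g - 1) + 1 = i + g by omega, hc.per] at this
      exact this.symm
    have hne : c (i + 1) ≠ c (i + (g - 1)) := by
      intro h
      have := (hc.shift (by omega) i).inj 1 (by omega) (g - 1) (by omega) h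
      omega
    have n1 := φ.map_adj_iff.2 h1
    have n2 := φ.map_adj_iff.2 h2
    have n3 := φ.map_adj_iff.2 hxy
    rw [SimpleGraph.cycleGraph_adj] at n1 n2 n3
    have hm1 : c (i + 1) ∈ verts g c := hc.mem_verts (by omega) _
    have hm2 : c (i + (g - 1)) ∈ verts g c := hc.mem_verts (by omega) _
    have trans1 : ∀ p q r : Fin (m + 2), p - q = 1 → p - r = 1 → q = r := by
      intro p q r h h'
      have : p - q = p - r := by rw [h, h']
      exact sub_right_injective this
    have trans2 : ∀ p q r : Fin (m + 2), q - p = 1 → r - p = 1 → q = r := by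
      intro p q r h h'
      have : q - p = r - p := by rw [h, h']
      exact sub_left_injective this
    rcases n1 with n1 | n1 <;> rcases n2 with n2 | n2 <;> rcases n3 with n3 | n3
    · exact absurd (φ.injective (trans1 _ _ _ n1 n2)) hne
    · exact absurd (φ.injective (trans1 _ _ _ n1 n2)) hne
    · rw [← φ.injective (trans1 _ _ _ n1 n3)]; exact hm1
    · rw [← φ.injective (trans2 _ _ _ n2 n3)]; exact hm2
    · rw [← φ.injective (trans1 _ _ _ n2 n3)]; exact hm2
    · rw [← φ.injective (trans2 _ _ _ n1 n3)]; exact hm1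
    · exact absurd (φ.injective (trans2 _ _ _ n1 n2)) hne
    · exact absurd (φ.injective (trans2 _ _ _ n1 n2)) hne
  intro u
  obtain ⟨P⟩ := hG.preconnected (c 0) u
  have : ∀ x y (P : G.Walk x y), x ∈ verts g c → y ∈ verts g c := by
    intro x y P
    induction P with
    | nil => exact id
    | cons hadj P ih => exact fun hx => ih (hclosed _ _ hx hadj)
  exact this _ _ P (hc.mem_verts (by omega) 0)

/-- The numerical inequality. -/
lemma numeric (g p : ℕ) (hg : 3 ≤ g) (hp : 1 ≤ p) (W : ℕ)
    (hW : 3 * W ≤ 3 * (g * (g * g / 4)) + 6 * (p * (g * g / 4)) + 3 * (g * (p * (p + 1))) +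
        (p - 1) * (p * (p + 1))) :
    g * W < (g + p) * ((g + p) * ((g + p) * (g + p) / 4)) := by
  have h1 : 4 * (g * g / 4) ≤ g * g := Nat.mul_div_le _ _
  have h2 : (g + p) * (g + p) ≤ 4 * ((g + p) * (g + p) / 4) + 1 := by
    rcases Nat.even_or_odd (g + p) with ⟨k, hk⟩ | ⟨k, hk⟩
    · rw [hk]
      have : (k + k) * (k + k) = 4 * (k * k) := by ring
      omega
    · rw [hk]
      have : (2 * k + 1) * (2 * k + 1) = 4 * (k * k + k) + 1 := by ring
      omega
  obtain ⟨G, rfl⟩ : ∃ G, g = G + 3 := ⟨g - 3, by omega⟩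
  obtain ⟨P, rfl⟩ : ∃ P, p = P + 1 := ⟨p - 1, by omega⟩
  set q := (G + 3) * (G + 3) / 4 with hq
  set Q := (G + 3 + (P + 1)) * (G + 3 + (P + 1)) / 4 with hQ
  have e1 : P + 1 - 1 = P := by omega
  rw [e1] at hW
  have h3 : 12 * ((G + 3) * W) ≤ (G + 3) * (3 * ((G + 3) * ((G + 3) * (G + 3))) +
      6 * ((P + 1) * ((G + 3) * (G + 3))) + 12 * ((G + 3) * ((P + 1) * (P + 1 + 1))) +
      4 * (P * ((P + 1) * (P + 1 + 1)))) := by
    have e2 : 12 * ((G + 3) * W) = (G + 3) * (4 * (3 * W)) := by ring
    rw [e2]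
    apply Nat.mul_le_mul_left
    have h4 : 4 * (3 * W) ≤ 4 * (3 * ((G + 3) * q) + 6 * ((P + 1) * q) +
        3 * ((G + 3) * ((P + 1) * (P + 1 + 1))) + P * ((P + 1) * (P + 1 + 1))) :=
      Nat.mul_le_mul_left 4 hW
    refine h4.trans ?_
    have h5 : (G + 3) * (4 * q) ≤ (G + 3) * ((G + 3) * (G + 3)) := Nat.mul_le_mul_left _ h1
    have h6 : (P + 1) * (4 * q) ≤ (P + 1) * ((G + 3) * (G + 3)) := Nat.mul_le_mul_left _ h1
    nlinarith [h5, h6]
  have h7 : (G + 3) * (3 * ((G + 3) * ((G + 3) * (G + 3))) +
      6 * ((P + 1) * ((G + 3) * (G + 3))) + 12 * ((G + 3) * ((P + 1) * (P + 1 + 1))) +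
      4 * (P * ((P + 1) * (P + 1 + 1)))) + 3 * ((G + 3 + (P + 1)) * (G + 3 + (P + 1))) <
      3 * ((G + 3 + (P + 1)) * ((G + 3 + (P + 1)) * ((G + 3 + (P + 1)) * (G + 3 + (P + 1))))) := by
    have e3 : 3 * ((G + 3 + (P + 1)) * ((G + 3 + (P + 1)) * ((G + 3 + (P + 1)) *
        (G + 3 + (P + 1))))) = ((G + 3) * (3 * ((G + 3) * ((G + 3) * (G + 3))) +
      6 * ((P + 1) * ((G + 3) * (G + 3))) + 12 * ((G + 3) * ((P + 1) * (P + 1 + 1))) +
      4 * (P * ((P + 1) * (P + 1 + 1)))) + 3 * ((G + 3 + (P + 1)) * (G + 3 + (P + 1)))) +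
      (99 + 234 * P + 114 * G + 184 * (G * P) + 45 * G ^ 2 + 54 * (G ^ 2 * P) + 6 * G ^ 3 +
        6 * (G ^ 3 * P) + 141 * P ^ 2 + 60 * (G * P ^ 2) + 6 * (G ^ 2 * P ^ 2) + 36 * P ^ 3 +
        8 * (G * P ^ 3) + 3 * P ^ 4) := by ring
    rw [e3]
    omega
  have h8 : 3 * ((G + 3 + (P + 1)) * ((G + 3 + (P + 1)) * ((G + 3 + (P + 1)) *
      (G + 3 + (P + 1))))) ≤ 3 * ((G + 3 + (P + 1)) * ((G + 3 + (P + 1)) * (4 * Q + 1))) := by
    apply Nat.mul_le_mul_left
    apply Nat.mul_le_mul_left
    apply Nat.mul_le_mul_left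
    exact h2
  have e4 : 3 * ((G + 3 + (P + 1)) * ((G + 3 + (P + 1)) * (4 * Q + 1))) =
      12 * ((G + 3 + (P + 1)) * ((G + 3 + (P + 1)) * Q)) +
        3 * ((G + 3 + (P + 1)) * (G + 3 + (P + 1))) := by ring
  rw [e4] at h8
  omega

/-- For every connected graph `G` on `n` vertices containing a cycle, the product of the average
distance and the girth is at most `n³/(4(n-1))` for even `n` and `(n²+n)/4` for odd `n`, with
equality if and only if `G` is the cycle `C_n`. -/
theorem result : ∀ (V : Type) [Fintype V] (G : SimpleGraph V), G.Connected → ¬ G.IsAcyclic →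
    ∀ n : ℕ, Fintype.card V = n →
    ∀ B : ℝ, B = (if Even n then (n : ℝ) ^ 3 / (4 * ((n : ℝ) - 1)) else ((n : ℝ) ^ 2 + n) / 4) →
    avgDist G * (G.girth : ℝ) ≤ B ∧
      (avgDist G * (G.girth : ℝ) = B ↔ Nonempty (G ≃g SimpleGraph.cycleGraph n)) := by
  intro V _ G hG hcyc n hn B hB
  classical
  obtain ⟨a, w, hw, hgirth⟩ := SimpleGraph.exists_girth_eq_length.2 hcyc
  set g := w.length with hg
  have hg3 : 3 ≤ g := hw.three_le_length
  have hc := cycSeq_of_cycle w hw
  rw [← hg] at hc
  set c : ℕ → V := fun i => w.getVert (i % g) with hcdef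
  have hgn : g ≤ n := by
    have h1 := hc.card_verts
    have h2 := Finset.card_le_univ (verts g c)
    omega
  obtain ⟨p, hp⟩ : ∃ p, n = g + p := ⟨n - g, by omega⟩
  set W := ∑ u, ∑ v, G.dist u v with hWdef
  have hWb := wiener_bound g (by omega) p V G hG c hc (by omega)
  rw [← hWdef] at hWb
  -- the key integer facts
  have hle : g * W ≤ n * (n * (n * n / 4)) := by
    rcases Nat.eq_zero_or_pos p with h0 | h0
    · subst h0
      rw [Nat.add_zero] at hp
      rw [hp]
      apply Nat.mul_le_mul_left
      omega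
    · rw [hp]
      exact (numeric g p hg3 h0 W hWb).le
  have heq : g * W = n * (n * (n * n / 4)) ↔ Nonempty (G ≃g SimpleGraph.cycleGraph n) := by
    constructor
    · intro h
      rcases Nat.eq_zero_or_pos p with h0 | h0
      · subst h0
        rw [Nat.add_zero] at hp
        rw [hp]
        exact iso_of_girth G g hg3 (by omega) hgirth c hc
      · exfalso
        have := numeric g p hg3 h0 W hWb
        rw [← hp, h] at this
        exact lt_irrefl _ this
    · rintro ⟨φ⟩
      have hfull := cycle_full G hG n φ g hg3 c hc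
      have huniv : verts g c = Finset.univ := Finset.eq_univ_iff_forall.2 hfull
      have hgn' : g = n := by
        have h1 := hc.card_verts
        rw [huniv, Finset.card_univ] at h1
        omega
      apply le_antisymm hle
      rw [hgn']
      apply Nat.mul_le_mul_left
      exact cycle_sum_ge G hG n (by omega) φ
  have hnR : (3 : ℝ) ≤ n := by
    have : 3 ≤ n := by omega
    exact_mod_cast this
  have hn1 : (0 : ℝ) < (n : ℝ) - 1 := by linarith
  have hn0 : (0 : ℝ) < (n : ℝ) := by linarith
  -- reformulate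
  have havg : avgDist G * (G.girth : ℝ) = ((g * W : ℕ) : ℝ) / ((n : ℝ) * ((n : ℝ) - 1)) := by
    unfold avgDist
    rw [hgirth, hn]
    have : (∑ u, ∑ v, (G.dist u v : ℝ)) = (W : ℝ) := by
      rw [hWdef]
      push_cast
      rfl
    rw [this]
    push_cast
    ring
  have hBB : B = ((n * (n * (n * n / 4)) : ℕ) : ℝ) / ((n : ℝ) * ((n : ℝ) - 1)) := by
    rw [hB]
    split_ifs with hev
    · obtain ⟨k, hk⟩ := hev
      have h1 : n * n / 4 = k * k := by
        rw [hk]
        have : (k + k) * (k + k) = 4 * (k * k) := by ring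
        omega
      rw [h1]
      have h2 : (k : ℝ) = (n : ℝ) / 2 := by
        have : (n : ℝ) = k + k := by exact_mod_cast hk
        linarith
      push_cast
      rw [h2]
      field_simp
      ring
    · rw [Nat.not_even_iff_odd] at hev
      obtain ⟨k, hk⟩ := hev
      have h1 : n * n / 4 = k * k + k := by
        rw [hk]
        have : (2 * k + 1) * (2 * k + 1) = 4 * (k * k + k) + 1 := by ring
        omega
      rw [h1]
      have h2 : (k : ℝ) = ((n : ℝ) - 1) / 2 := by
        have : (n : ℝ) = 2 * k + 1 := by exact_mod_cast hk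
        linarith
      push_cast
      rw [h2]
      field_simp
      ring
  have hden : (0 : ℝ) < (n : ℝ) * ((n : ℝ) - 1) := mul_pos hn0 hn1
  rw [havg, hBB]
  constructor
  · rw [div_le_div_iff_of_pos_right hden]
    exact_mod_cast hle
  · rw [← heq, div_left_inj' hden.ne']
    exact_mod_cast Iff.rfl

end Pool.Agent.Results.MP_0edf05_co.AvgDistGirth
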